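import Pool.Agent.W477.CL.Stms

/-!
# Project OC, part ORB: finitely many orbits
-/

set_option maxHeartbeats 1000000
set_option linter.all false

namespace Pool.Agent.W924.OC

open FirstOrder FirstOrder.Language
open Pool.Agent.Helper672.ZFA hiding IsOrdPair IsPair Mem
open Pool.Agent.H310
open Pool.Agent.W924
open Pool.Agent.W477.CL

universe u

variable {M : Type u} [L.Structure M] [hM : IsModel M]

/-- Pairs of positions with the same entry. -/
noncomputable def eqs (x : TT M (INat M)) : IPow M (INat M × INat M) :=
  sep M (fun q => ∃ y, (q.1, y) ∈ x ∧ (q.2, y) ∈ x)

/-- The set of the entries at the positions in `I`. -/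
noncomputable def im (x : TT M (INat M)) (I : IPow M (INat M)) : IPow M (INat M) :=
  sep M (fun y => ∃ i, i ∈ I ∧ (i, y) ∈ x)

/-- The sets of positions such that the set of the entries is in `c`. -/
noncomputable def col (c : IPow M (IPow M (INat M))) (n : INat M) (x : TT M (INat M)) :
    IPow M (IPow M (INat M)) :=
  sep M (fun I => (∀ i, i ∈ I → i < n) ∧ im x I ∈ c)

/-- The correspondence of the entries of two tuples. -/
noncomputable def cor (x' x : TT M (INat M)) : IPow M (INat M × INat M) :=
  sep M (fun q => ∃ i, (i, q.1) ∈ x' ∧ (i, q.2) ∈ x)

theorem mem_eqs {x : TT M (INat M)} {i j : INat M} :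
    (i, j) ∈ eqs x ↔ ∃ y, (i, y) ∈ x ∧ (j, y) ∈ x := by
  unfold eqs
  rw [mem_sep (by (repeat' (first | with_reducible exact IntF.id | with_reducible exact IntF.fst' | with_reducible exact IntF.snd' | with_reducible exact IntF.const _ | with_reducible exact Int.const _ | assumption | with_reducible apply Int.and | with_reducible apply Int.or | with_reducible apply Int.not | with_reducible apply Int.imp | with_reducible apply Int.iff | with_reducible apply Int.ne | with_reducible apply Int.eq | with_reducible apply Int.mem | with_reducible apply Int.subset | with_reducible apply Int.ltN | with_reducible apply Int.leN | with_reducible apply Int.fin | with_reducible apply Int.unique | with_reducible apply Int.all | with_reducible apply Int.ex | with_reducible apply IntF.fst | with_reducible apply IntF.snd | with_reducible apply IntF.app | with_reducible apply IntF.ite | with_reducible apply IntF.sep | with_reducible apply IntF.lam | with_reducible apply IntF.insert | with_reducible apply IntF.singleton | with_reducible apply IntF.union | with_reducible apply IntF.inter | with_reducible apply IntF.sdiff | with_reducible apply IntF.isUnion | with_reducible apply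 IntF.iimage | with_reducible apply IntF.the | with_reducible apply IntF.irec | with_reducible_and_instances apply IntF.mul | with_reducible_and_instances apply IntF.inv | with_reducible_and_instances apply IntF.smul | with_reducible apply IntF.succ | with_reducible apply IntF.val | with_reducible apply IntF.mk | (with_reducible refine Int.comp ?_ ?_; assumption) | (with_reducible refine Int.comp₂ ?_ ?_ ?_; assumption) | (with_reducible refine Int.comp₃ ?_ ?_ ?_ ?_; assumption) | (with_reducible refine Int.comp₄ ?_ ?_ ?_ ?_ ?_; assumption) | (with_reducible refine IntF.comp ?_ ?_; assumption) | (with_reducible refine IntF.comp₂ ?_ ?_ ?_; assumption) | (with_reducible refine Helper672.ZFA.IntF.comp₃ ?_ ?_ ?_ ?_; assumption) | with_reducible apply IntF.pair)))]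

theorem mem_im {x : TT M (INat M)} {I : IPow M (INat M)} {y : INat M} :
    y ∈ im x I ↔ ∃ i, i ∈ I ∧ (i, y) ∈ x := by
  unfold im
  rw [mem_sep (by (repeat' (first | with_reducible exact IntF.id | with_reducible exact IntF.fst' | with_reducible exact IntF.snd' | with_reducible exact IntF.const _ | with_reducible exact Int.const _ | assumption | with_reducible apply Int.and | with_reducible apply Int.or | with_reducible apply Int.not | with_reducible apply Int.imp | with_reducible apply Int.iff | with_reducible apply Int.ne | with_reducible apply Int.eq | with_reducible apply Int.mem | with_reducible apply Int.subset | with_reducible apply Int.ltN | with_reducible apply Int.leN | with_reducible apply Int.fin | with_reducible apply Int.unique | with_reducible apply Int.all | with_reducible apply Int.ex | with_reducible apply IntF.fst | with_reducible apply IntF.snd | with_reducible apply IntF.app | with_reducible apply IntF.ite | with_reducible apply IntF.sep | with_reducible apply IntF.lam | with_reducible apply IntF.insert | with_reducible apply IntF.singleton | with_reducible apply IntF.union | with_reducible apply IntF.inter | with_reducible apply IntF.sdiff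 | with_reducible apply IntF.isUnion | with_reducible apply IntF.iimage | with_reducible apply IntF.the | with_reducible apply IntF.irec | with_reducible_and_instances apply IntF.mul | with_reducible_and_instances apply IntF.inv | with_reducible_and_instances apply IntF.smul | with_reducible apply IntF.succ | with_reducible apply IntF.val | with_reducible apply IntF.mk | (with_reducible refine Int.comp ?_ ?_; assumption) | (with_reducible refine Int.comp₂ ?_ ?_ ?_; assumption) | (with_reducible refine Int.comp₃ ?_ ?_ ?_ ?_; assumption) | (with_reducible refine Int.comp₄ ?_ ?_ ?_ ?_ ?_; assumption) | (with_reducible refine IntF.comp ?_ ?_; assumption) | (with_reducible refine IntF.comp₂ ?_ ?_ ?_; assumption) | (with_reducible refine Helper672.ZFA.IntF.comp₃ ?_ ?_ ?_ ?_; assumption) | with_reducible apply IntF.pair)))]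

theorem int_im : IntF M (fun q : TT M (INat M) × IPow M (INat M) => im q.1 q.2) := by
  unfold im
  (repeat' (first | with_reducible exact IntF.id | with_reducible exact IntF.fst' | with_reducible exact IntF.snd' | with_reducible exact IntF.const _ | with_reducible exact Int.const _ | assumption | with_reducible apply Int.and | with_reducible apply Int.or | with_reducible apply Int.not | with_reducible apply Int.imp | with_reducible apply Int.iff | with_reducible apply Int.ne | with_reducible apply Int.eq | with_reducible apply Int.mem | with_reducible apply Int.subset | with_reducible apply Int.ltN | with_reducible apply Int.leN | with_reducible apply Int.fin | with_reducible apply Int.unique | with_reducible apply Int.all | with_reducible apply Int.ex | with_reducible apply IntF.fst | with_reducible apply IntF.snd | with_reducible apply IntF.app | with_reducible apply IntF.ite | with_reducible apply IntF.sep | with_reducible apply IntF.lam | with_reducible apply IntF.insert | with_reducible apply IntF.singleton | with_reducible apply IntF.union | with_reducible apply IntF.inter | with_reducible apply IntF.sdiff | with_reducible apply IntF.isUnion | with_reducible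 apply IntF.iimage | with_reducible apply IntF.the | with_reducible apply IntF.irec | with_reducible_and_instances apply IntF.mul | with_reducible_and_instances apply IntF.inv | with_reducible_and_instances apply IntF.smul | with_reducible apply IntF.succ | with_reducible apply IntF.val | with_reducible apply IntF.mk | (with_reducible refine Int.comp ?_ ?_; assumption) | (with_reducible refine Int.comp₂ ?_ ?_ ?_; assumption) | (with_reducible refine Int.comp₃ ?_ ?_ ?_ ?_; assumption) | (with_reducible refine Int.comp₄ ?_ ?_ ?_ ?_ ?_; assumption) | (with_reducible refine IntF.comp ?_ ?_; assumption) | (with_reducible refine IntF.comp₂ ?_ ?_ ?_; assumption) | (with_reducible refine Helper672.ZFA.IntF.comp₃ ?_ ?_ ?_ ?_; assumption) | with_reducible apply IntF.pair))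

theorem int_eqs : IntF M (fun x : TT M (INat M) => eqs x) := by
  unfold eqs
  (repeat' (first | with_reducible exact IntF.id | with_reducible exact IntF.fst' | with_reducible exact IntF.snd' | with_reducible exact IntF.const _ | with_reducible exact Int.const _ | assumption | with_reducible apply Int.and | with_reducible apply Int.or | with_reducible apply Int.not | with_reducible apply Int.imp | with_reducible apply Int.iff | with_reducible apply Int.ne | with_reducible apply Int.eq | with_reducible apply Int.mem | with_reducible apply Int.subset | with_reducible apply Int.ltN | with_reducible apply Int.leN | with_reducible apply Int.fin | with_reducible apply Int.unique | with_reducible apply Int.all | with_reducible apply Int.ex | with_reducible apply IntF.fst | with_reducible apply IntF.snd | with_reducible apply IntF.app | with_reducible apply IntF.ite | with_reducible apply IntF.sep | with_reducible apply IntF.lam | with_reducible apply IntF.insert | with_reducible apply IntF.singleton | with_reducible apply IntF.union | with_reducible apply IntF.inter | with_reducible apply IntF.sdiff | with_reducible apply IntF.isUnion | with_reducible apply IntF.iimage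 | with_reducible apply IntF.the | with_reducible apply IntF.irec | with_reducible_and_instances apply IntF.mul | with_reducible_and_instances apply IntF.inv | with_reducible_and_instances apply IntF.smul | with_reducible apply IntF.succ | with_reducible apply IntF.val | with_reducible apply IntF.mk | (with_reducible refine Int.comp ?_ ?_; assumption) | (with_reducible refine Int.comp₂ ?_ ?_ ?_; assumption) | (with_reducible refine Int.comp₃ ?_ ?_ ?_ ?_; assumption) | (with_reducible refine Int.comp₄ ?_ ?_ ?_ ?_ ?_; assumption) | (with_reducible refine IntF.comp ?_ ?_; assumption) | (with_reducible refine IntF.comp₂ ?_ ?_ ?_; assumption) | (with_reducible refine Helper672.ZFA.IntF.comp₃ ?_ ?_ ?_ ?_; assumption) | with_reducible apply IntF.pair))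

theorem mem_col {c : IPow M (IPow M (INat M))} {n : INat M} {x : TT M (INat M)}
    {I : IPow M (INat M)} : I ∈ col c n x ↔ (∀ i, i ∈ I → i < n) ∧ im x I ∈ c := by
  have h : IntF M (fun q : TT M (INat M) × IPow M (INat M) => im q.1 q.2) := int_im
  unfold col
  rw [mem_sep (by (repeat' (first | with_reducible exact IntF.id | with_reducible exact IntF.fst' | with_reducible exact IntF.snd' | with_reducible exact IntF.const _ | with_reducible exact Int.const _ | assumption | with_reducible apply Int.and | with_reducible apply Int.or | with_reducible apply Int.not | with_reducible apply Int.imp | with_reducible apply Int.iff | with_reducible apply Int.ne | with_reducible apply Int.eq | with_reducible apply Int.mem | with_reducible apply Int.subset | with_reducible apply Int.ltN | with_reducible apply Int.leN | with_reducible apply Int.fin | with_reducible apply Int.unique | with_reducible apply Int.all | with_reducible apply Int.ex | with_reducible apply IntF.fst | with_reducible apply IntF.snd | with_reducible apply IntF.app | with_reducible apply IntF.ite | with_reducible apply IntF.sep | with_reducible apply IntF.lam | with_reducible apply IntF.insert | with_reducible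 apply IntF.singleton | with_reducible apply IntF.union | with_reducible apply IntF.inter | with_reducible apply IntF.sdiff | with_reducible apply IntF.isUnion | with_reducible apply IntF.iimage | with_reducible apply IntF.the | with_reducible apply IntF.irec | with_reducible_and_instances apply IntF.mul | with_reducible_and_instances apply IntF.inv | with_reducible_and_instances apply IntF.smul | with_reducible apply IntF.succ | with_reducible apply IntF.val | with_reducible apply IntF.mk | (with_reducible refine Int.comp ?_ ?_; assumption) | (with_reducible refine Int.comp₂ ?_ ?_ ?_; assumption) | (with_reducible refine Int.comp₃ ?_ ?_ ?_ ?_; assumption) | (with_reducible refine Int.comp₄ ?_ ?_ ?_ ?_ ?_; assumption) | (with_reducible refine IntF.comp ?_ ?_; assumption) | (with_reducible refine IntF.comp₂ ?_ ?_ ?_; assumption) | (with_reducible refine Helper672.ZFA.IntF.comp₃ ?_ ?_ ?_ ?_; assumption) | with_reducible apply IntF.pair)))]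

theorem int_col {c : IPow M (IPow M (INat M))} {n : INat M} :
    IntF M (fun x : TT M (INat M) => col c n x) := by
  have h : IntF M (fun q : TT M (INat M) × IPow M (INat M) => im q.1 q.2) := int_im
  unfold col
  (repeat' (first | with_reducible exact IntF.id | with_reducible exact IntF.fst' | with_reducible exact IntF.snd' | with_reducible exact IntF.const _ | with_reducible exact Int.const _ | assumption | with_reducible apply Int.and | with_reducible apply Int.or | with_reducible apply Int.not | with_reducible apply Int.imp | with_reducible apply Int.iff | with_reducible apply Int.ne | with_reducible apply Int.eq | with_reducible apply Int.mem | with_reducible apply Int.subset | with_reducible apply Int.ltN | with_reducible apply Int.leN | with_reducible apply Int.fin | with_reducible apply Int.unique | with_reducible apply Int.all | with_reducible apply Int.ex | with_reducible apply IntF.fst | with_reducible apply IntF.snd | with_reducible apply IntF.app | with_reducible apply IntF.ite | with_reducible apply IntF.sep | with_reducible apply IntF.lam | with_reducible apply IntF.insert | with_reducible apply IntF.singleton | with_reducible apply IntF.union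 | with_reducible apply IntF.inter | with_reducible apply IntF.sdiff | with_reducible apply IntF.isUnion | with_reducible apply IntF.iimage | with_reducible apply IntF.the | with_reducible apply IntF.irec | with_reducible_and_instances apply IntF.mul | with_reducible_and_instances apply IntF.inv | with_reducible_and_instances apply IntF.smul | with_reducible apply IntF.succ | with_reducible apply IntF.val | with_reducible apply IntF.mk | (with_reducible refine Int.comp ?_ ?_; assumption) | (with_reducible refine Int.comp₂ ?_ ?_ ?_; assumption) | (with_reducible refine Int.comp₃ ?_ ?_ ?_ ?_; assumption) | (with_reducible refine Int.comp₄ ?_ ?_ ?_ ?_ ?_; assumption) | (with_reducible refine IntF.comp ?_ ?_; assumption) | (with_reducible refine IntF.comp₂ ?_ ?_ ?_; assumption) | (with_reducible refine Helper672.ZFA.IntF.comp₃ ?_ ?_ ?_ ?_; assumption) | with_reducible apply IntF.pair))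

theorem mem_cor {x' x : TT M (INat M)} {a b : INat M} :
    (a, b) ∈ cor x' x ↔ ∃ i, (i, a) ∈ x' ∧ (i, b) ∈ x := by
  unfold cor
  rw [mem_sep (by (repeat' (first | with_reducible exact IntF.id | with_reducible exact IntF.fst' | with_reducible exact IntF.snd' | with_reducible exact IntF.const _ | with_reducible exact Int.const _ | assumption | with_reducible apply Int.and | with_reducible apply Int.or | with_reducible apply Int.not | with_reducible apply Int.imp | with_reducible apply Int.iff | with_reducible apply Int.ne | with_reducible apply Int.eq | with_reducible apply Int.mem | with_reducible apply Int.subset | with_reducible apply Int.ltN | with_reducible apply Int.leN | with_reducible apply Int.fin | with_reducible apply Int.unique | with_reducible apply Int.all | with_reducible apply Int.ex | with_reducible apply IntF.fst | with_reducible apply IntF.snd | with_reducible apply IntF.app | with_reducible apply IntF.ite | with_reducible apply IntF.sep | with_reducible apply IntF.lam | with_reducible apply IntF.insert | with_reducible apply IntF.singleton | with_reducible apply IntF.union | with_reducible apply IntF.inter | with_reducible apply IntF.sdiff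 | with_reducible apply IntF.isUnion | with_reducible apply IntF.iimage | with_reducible apply IntF.the | with_reducible apply IntF.irec | with_reducible_and_instances apply IntF.mul | with_reducible_and_instances apply IntF.inv | with_reducible_and_instances apply IntF.smul | with_reducible apply IntF.succ | with_reducible apply IntF.val | with_reducible apply IntF.mk | (with_reducible refine Int.comp ?_ ?_; assumption) | (with_reducible refine Int.comp₂ ?_ ?_ ?_; assumption) | (with_reducible refine Int.comp₃ ?_ ?_ ?_ ?_; assumption) | (with_reducible refine Int.comp₄ ?_ ?_ ?_ ?_ ?_; assumption) | (with_reducible refine IntF.comp ?_ ?_; assumption) | (with_reducible refine IntF.comp₂ ?_ ?_ ?_; assumption) | (with_reducible refine Helper672.ZFA.IntF.comp₃ ?_ ?_ ?_ ?_; assumption) | with_reducible apply IntF.pair)))]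

theorem tup_eq {n : INat M} {x : TT M (INat M)} (h : ITup n x) {k y y' : INat M}
    (h1 : (k, y) ∈ x) (h2 : (k, y') ∈ x) : y = y' :=
  (h.2 k (h.1 k y h1)).unique h1 h2

theorem fin_rng {n : INat M} {x : TT M (INat M)} (h : ITup n x) :
    FinP M (fun y : INat M => ∃ i, i < n ∧ the (fun y => (i, y) ∈ x) 0 = y) := by
  have hf : IntF M (fun i : INat M => the (fun y => (i, y) ∈ x) (0 : INat M)) := by (repeat' (first | with_reducible exact IntF.id | with_reducible exact IntF.fst' | with_reducible exact IntF.snd' | with_reducible exact IntF.const _ | with_reducible exact Int.const _ | assumption | with_reducible apply Int.and | with_reducible apply Int.or | with_reducible apply Int.not | with_reducible apply Int.imp | with_reducible apply Int.iff | with_reducible apply Int.ne | with_reducible apply Int.eq | with_reducible apply Int.mem | with_reducible apply Int.subset | with_reducible apply Int.ltN | with_reducible apply Int.leN | with_reducible apply Int.fin | with_reducible apply Int.unique | with_reducible apply Int.all | with_reducible apply Int.ex | with_reducible apply IntF.fst | with_reducible apply IntF.snd | with_reducible apply IntF.app | with_reducible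 apply IntF.ite | with_reducible apply IntF.sep | with_reducible apply IntF.lam | with_reducible apply IntF.insert | with_reducible apply IntF.singleton | with_reducible apply IntF.union | with_reducible apply IntF.inter | with_reducible apply IntF.sdiff | with_reducible apply IntF.isUnion | with_reducible apply IntF.iimage | with_reducible apply IntF.the | with_reducible apply IntF.irec | with_reducible_and_instances apply IntF.mul | with_reducible_and_instances apply IntF.inv | with_reducible_and_instances apply IntF.smul | with_reducible apply IntF.succ | with_reducible apply IntF.val | with_reducible apply IntF.mk | (with_reducible refine Int.comp ?_ ?_; assumption) | (with_reducible refine Int.comp₂ ?_ ?_ ?_; assumption) | (with_reducible refine Int.comp₃ ?_ ?_ ?_ ?_; assumption) | (with_reducible refine Int.comp₄ ?_ ?_ ?_ ?_ ?_; assumption) | (with_reducible refine IntF.comp ?_ ?_; assumption) | (with_reducible refine IntF.comp₂ ?_ ?_ ?_; assumption) | (with_reducible refine Helper672.ZFA.IntF.comp₃ ?_ ?_ ?_ ?_; assumption) | with_reducible apply IntF.pair))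
  exact (finP_lt n).image hf

theorem rng_of {n : INat M} {x : TT M (INat M)} (h : ITup n x) {i y : INat M} (hy : (i, y) ∈ x) :
    ∃ i, i < n ∧ the (fun y => (i, y) ∈ x) (0 : INat M) = y :=
  ⟨i, h.1 i y hy, the_eq (h.2 i (h.1 i y hy)) hy⟩

theorem fin_cor {n : INat M} {x' x : TT M (INat M)} (h' : ITup n x') (h : ITup n x) :
    IFin (cor x' x) := by
  obtain ⟨s, hs, h1⟩ := fin_rng h'
  obtain ⟨t, ht, h2⟩ := fin_rng h
  refine (hs.prod ht).subset ?_
  rintro ⟨a, b⟩ hab
  rw [mem_cor] at hab
  obtain ⟨i, hi, hj⟩ := hab
  rw [mem_iprod]
  exact ⟨h1 _ (rng_of h' hi), h2 _ (rng_of h hj)⟩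

theorem eqs_cor {n : INat M} {x' x : TT M (INat M)} (h' : ITup n x') (h : ITup n x)
    (he : eqs x' = eqs x) {a b b' : INat M} (h1 : (a, b) ∈ cor x' x) (h2 : (a, b') ∈ cor x' x) :
    b = b' := by
  rw [mem_cor] at h1 h2
  obtain ⟨i, hi, hi'⟩ := h1
  obtain ⟨j, hj, hj'⟩ := h2
  have h3 : (i, j) ∈ eqs x' := mem_eqs.2 ⟨a, hi, hj⟩
  rw [he, mem_eqs] at h3
  obtain ⟨y, hy, hy'⟩ := h3
  exact (tup_eq h hi' hy).trans (tup_eq h hj' hy').symm

theorem eqs_cor' {n : INat M} {x' x : TT M (INat M)} (h' : ITup n x') (h : ITup n x)
    (he : eqs x' = eqs x) {a a' b : INat M} (h1 : (a, b) ∈ cor x' x) (h2 : (a', b) ∈ cor x' x) :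
    a = a' := by
  rw [mem_cor] at h1 h2
  obtain ⟨i, hi, hi'⟩ := h1
  obtain ⟨j, hj, hj'⟩ := h2
  have h3 : (i, j) ∈ eqs x := mem_eqs.2 ⟨b, hi', hj'⟩
  rw [← he, mem_eqs] at h3
  obtain ⟨y, hy, hy'⟩ := h3
  exact (tup_eq h' hi hy).trans (tup_eq h' hj hy').symm

theorem piso {c : IPow M (IPow M (INat M))} {n : INat M} {x' x : TT M (INat M)}
    (h' : ITup n x') (h : ITup n x) (he : eqs x' = eqs x) (hc : col c n x' = col c n x) :
    PIso c c (cor x' x) := by
  refine ⟨fin_cor h' h, fun a b b' h1 h2 => eqs_cor h' h he h1 h2,
    fun a a' b h1 h2 => eqs_cor' h' h he h1 h2, ?_⟩
  intro B C _ hBC hCB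
  let I : IPow M (INat M) := sep M (fun i => ∃ y, y ∈ B ∧ (i, y) ∈ x')
  have hI : ∀ i, i ∈ I ↔ ∃ y, y ∈ B ∧ (i, y) ∈ x' := fun i => mem_sep (by (repeat' (first | with_reducible exact IntF.id | with_reducible exact IntF.fst' | with_reducible exact IntF.snd' | with_reducible exact IntF.const _ | with_reducible exact Int.const _ | assumption | with_reducible apply Int.and | with_reducible apply Int.or | with_reducible apply Int.not | with_reducible apply Int.imp | with_reducible apply Int.iff | with_reducible apply Int.ne | with_reducible apply Int.eq | with_reducible apply Int.mem | with_reducible apply Int.subset | with_reducible apply Int.ltN | with_reducible apply Int.leN | with_reducible apply Int.fin | with_reducible apply Int.unique | with_reducible apply Int.all | with_reducible apply Int.ex | with_reducible apply IntF.fst | with_reducible apply IntF.snd | with_reducible apply IntF.app | with_reducible apply IntF.ite | with_reducible apply IntF.sep | with_reducible apply IntF.lam | with_reducible apply IntF.insert | with_reducible apply IntF.singleton | with_reducible apply IntF.union | with_reducible apply IntF.inter | with_reducible apply IntF.sdiff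 | with_reducible apply IntF.isUnion | with_reducible apply IntF.iimage | with_reducible apply IntF.the | with_reducible apply IntF.irec | with_reducible_and_instances apply IntF.mul | with_reducible_and_instances apply IntF.inv | with_reducible_and_instances apply IntF.smul | with_reducible apply IntF.succ | with_reducible apply IntF.val | with_reducible apply IntF.mk | (with_reducible refine Int.comp ?_ ?_; assumption) | (with_reducible refine Int.comp₂ ?_ ?_ ?_; assumption) | (with_reducible refine Int.comp₃ ?_ ?_ ?_ ?_; assumption) | (with_reducible refine Int.comp₄ ?_ ?_ ?_ ?_ ?_; assumption) | (with_reducible refine IntF.comp ?_ ?_; assumption) | (with_reducible refine IntF.comp₂ ?_ ?_ ?_; assumption) | (with_reducible refine Helper672.ZFA.IntF.comp₃ ?_ ?_ ?_ ?_; assumption) | with_reducible apply IntF.pair)))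
  have hI1 : ∀ i, i ∈ I → i < n := by
    intro i hi
    obtain ⟨y, _, hy⟩ := (hI i).1 hi
    exact h'.1 i y hy
  have h1 : im x' I = B := by
    refine IPow.ext' fun z => ?_
    rw [mem_im]
    constructor
    · rintro ⟨i, hi, hz⟩
      obtain ⟨y, hy, hy'⟩ := (hI i).1 hi
      rw [tup_eq h' hz hy']
      exact hy
    · intro hz
      obtain ⟨w, _, hw⟩ := hBC z hz
      obtain ⟨i, hi, _⟩ := mem_cor.1 hw
      exact ⟨i, (hI i).2 ⟨z, hz, hi⟩, hi⟩
  have h2 : im x I = C := by
    refine IPow.ext' fun z => ?_
    rw [mem_im]
    constructor
    · rintro ⟨i, hi, hz⟩
      obtain ⟨y, hy, hy'⟩ := (hI i).1 hi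
      obtain ⟨w, hw, hw'⟩ := hBC y hy
      have h3 : (y, z) ∈ cor x' x := mem_cor.2 ⟨i, hy', hz⟩
      rw [eqs_cor h' h he h3 hw']
      exact hw
    · intro hz
      obtain ⟨b, hb, hb'⟩ := hCB z hz
      obtain ⟨i, hi, hi'⟩ := mem_cor.1 hb'
      exact ⟨i, (hI i).2 ⟨b, hb, hi⟩, hi'⟩
  have h3 : I ∈ col c n x' ↔ I ∈ col c n x := by rw [hc]
  rw [mem_col, mem_col, h1, h2] at h3
  exact ⟨fun hB => (h3.1 ⟨hI1, hB⟩).2, fun hC => (h3.2 ⟨hI1, hC⟩).2⟩

theorem orb_holds : P_ORB.{u} := by
  intro M _ _ c n
  have hnI : Int M (fun m : INat M => m < n) := by (repeat' (first | with_reducible exact IntF.id | with_reducible exact IntF.fst' | with_reducible exact IntF.snd' | with_reducible exact IntF.const _ | with_reducible exact Int.const _ | assumption | with_reducible apply Int.and | with_reducible apply Int.or | with_reducible apply Int.not | with_reducible apply Int.imp | with_reducible apply Int.iff | with_reducible apply Int.ne | with_reducible apply Int.eq | with_reducible apply Int.mem | with_reducible apply Int.subset | with_reducible apply Int.ltN | with_reducible apply Int.leN | with_reducible apply Int.fin | with_reducible apply Int.unique | with_reducible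 apply Int.all | with_reducible apply Int.ex | with_reducible apply IntF.fst | with_reducible apply IntF.snd | with_reducible apply IntF.app | with_reducible apply IntF.ite | with_reducible apply IntF.sep | with_reducible apply IntF.lam | with_reducible apply IntF.insert | with_reducible apply IntF.singleton | with_reducible apply IntF.union | with_reducible apply IntF.inter | with_reducible apply IntF.sdiff | with_reducible apply IntF.isUnion | with_reducible apply IntF.iimage | with_reducible apply IntF.the | with_reducible apply IntF.irec | with_reducible_and_instances apply IntF.mul | with_reducible_and_instances apply IntF.inv | with_reducible_and_instances apply IntF.smul | with_reducible apply IntF.succ | with_reducible apply IntF.val | with_reducible apply IntF.mk | (with_reducible refine Int.comp ?_ ?_; assumption) | (with_reducible refine Int.comp₂ ?_ ?_ ?_; assumption) | (with_reducible refine Int.comp₃ ?_ ?_ ?_ ?_; assumption) | (with_reducible refine Int.comp₄ ?_ ?_ ?_ ?_ ?_; assumption) | (with_reducible refine IntF.comp ?_ ?_; assumption) | (with_reducible refine IntF.comp₂ ?_ ?_ ?_; assumption) | (with_reducible refine Helper672.ZFA.IntF.comp₃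 ?_ ?_ ?_ ?_; assumption) | with_reducible apply IntF.pair))
  set A : IPow M (INat M) := sep M (fun m => m < n) with hA
  have hAm : ∀ m, m ∈ A ↔ m < n := fun m => mem_sep hnI
  have hAf : IFin A := (finP_lt n).fin hnI
  let U : IPow M (IPow M (INat M × INat M) × IPow M (IPow M (INat M))) :=
    iprod (ipow (iprod A A)) (ipow (ipow A))
  have hU : IFin U := ((hAf.prod hAf).pow).prod (hAf.pow.pow)
  have hI : Int M (fun q : INat M × TT M (INat M) => ITup q.1 q.2) := int_ITup IntF.fst' IntF.snd'
  have hE : IntF M (fun x : TT M (INat M) => eqs x) := int_eqs
  have hC : IntF M (fun x : TT M (INat M) => col c n x) := int_col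
  obtain ⟨s, hs⟩ := IFin.exists_bound
    (r := fun (τ : IPow M (INat M × INat M) × IPow M (IPow M (INat M)))
      (s : IPow M (TT M (INat M))) => (IFin s ∧ ∀ x, x ∈ s → ITup n x) ∧
      ((∃ x, ITup n x ∧ eqs x = τ.1 ∧ col c n x = τ.2) →
        ∃ x, x ∈ s ∧ eqs x = τ.1 ∧ col c n x = τ.2))
    (by (repeat' (first | with_reducible exact IntF.id | with_reducible exact IntF.fst' | with_reducible exact IntF.snd' | with_reducible exact IntF.const _ | with_reducible exact Int.const _ | assumption | with_reducible apply Int.and | with_reducible apply Int.or | with_reducible apply Int.not | with_reducible apply Int.imp | with_reducible apply Int.iff | with_reducible apply Int.ne | with_reducible apply Int.eq | with_reducible apply Int.mem | with_reducible apply Int.subset | with_reducible apply Int.ltN | with_reducible apply Int.leN | with_reducible apply Int.fin | with_reducible apply Int.unique | with_reducible apply Int.all | with_reducible apply Int.ex | with_reducible apply IntF.fst | with_reducible apply IntF.snd | with_reducible apply IntF.app | with_reducible apply IntF.ite | with_reducible apply IntF.sep | with_reducible apply IntF.lam | with_reducible apply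 IntF.insert | with_reducible apply IntF.singleton | with_reducible apply IntF.union | with_reducible apply IntF.inter | with_reducible apply IntF.sdiff | with_reducible apply IntF.isUnion | with_reducible apply IntF.iimage | with_reducible apply IntF.the | with_reducible apply IntF.irec | with_reducible_and_instances apply IntF.mul | with_reducible_and_instances apply IntF.inv | with_reducible_and_instances apply IntF.smul | with_reducible apply IntF.succ | with_reducible apply IntF.val | with_reducible apply IntF.mk | (with_reducible refine Int.comp ?_ ?_; assumption) | (with_reducible refine Int.comp₂ ?_ ?_ ?_; assumption) | (with_reducible refine Int.comp₃ ?_ ?_ ?_ ?_; assumption) | (with_reducible refine Int.comp₄ ?_ ?_ ?_ ?_ ?_; assumption) | (with_reducible refine IntF.comp ?_ ?_; assumption) | (with_reducible refine IntF.comp₂ ?_ ?_ ?_; assumption) | (with_reducible refine Helper672.ZFA.IntF.comp₃ ?_ ?_ ?_ ?_; assumption) | with_reducible apply IntF.pair)))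
    (by
      intro b d
      by_cases hb : IFin b ∧ ∀ x, x ∈ b → ITup n x
      · by_cases hd : IFin d ∧ ∀ x, x ∈ d → ITup n x
        · refine ⟨b ∪ d, ?_⟩
          have hbd : IFin (b ∪ d) ∧ ∀ x, x ∈ b ∪ d → ITup n x :=
            ⟨hb.1.union hd.1, fun x hx => (mem_union.1 hx).elim (hb.2 x) (hd.2 x)⟩
          rintro τ (h | h)
          · refine ⟨hbd, fun h1 => ?_⟩
            obtain ⟨x, hx, hx'⟩ := h.2 h1
            exact ⟨x, mem_union.2 (Or.inl hx), hx'⟩
          · refine ⟨hbd, fun h1 => ?_⟩
            obtain ⟨x, hx, hx'⟩ := h.2 h1
            exact ⟨x, mem_union.2 (Or.inr hx), hx'⟩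
        · refine ⟨b, ?_⟩
          rintro τ (h | h)
          · exact h
          · exact absurd h.1 hd
      · refine ⟨d, ?_⟩
        rintro τ (h | h)
        · exact absurd h.1 hb
        · exact h)
    ⟨∅⟩ hU
    (by
      intro τ _
      by_cases h : ∃ x, ITup n x ∧ eqs x = τ.1 ∧ col c n x = τ.2
      · obtain ⟨x, hx, hx'⟩ := h
        refine ⟨{x}, ⟨IFin.singleton x, ?_⟩, fun _ => ⟨x, mem_singleton.2 rfl, hx'⟩⟩
        intro y hy
        rw [mem_singleton] at hy
        rw [hy]
        exact hx
      · refine ⟨∅, ⟨IFin.empty, ?_⟩, fun h' => absurd h' h⟩
        intro y hy
        simp at hy)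
  have h0 := hs (∅, ∅) (by
    rw [mem_iprod, mem_ipow, mem_ipow]
    exact ⟨fun x hx => absurd hx (by simp), fun x hx => absurd hx (by simp)⟩)
  refine ⟨s, h0.1.1, h0.1.2, fun x hx => ?_⟩
  have h1 : (eqs x, col c n x) ∈ U := by
    rw [mem_iprod, mem_ipow, mem_ipow]
    constructor
    · rintro ⟨i, j⟩ hij
      obtain ⟨y, hy, hy'⟩ := mem_eqs.1 hij
      rw [mem_iprod]
      exact ⟨(hAm i).2 (hx.1 i y hy), (hAm j).2 (hx.1 j y hy')⟩
    · intro I hI'
      rw [mem_ipow]
      exact fun i hi => (hAm i).2 ((mem_col.1 hI').1 i hi)
  obtain ⟨x', hx1, hx2, hx3⟩ := (hs _ h1).2 ⟨x, hx, rfl, rfl⟩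
  refine ⟨x', cor x' x, hx1, piso (h0.1.2 x' hx1) hx hx2 hx3, ?_⟩
  intro i y z hy hz
  exact mem_cor.2 ⟨i, hy, hz⟩

end Pool.Agent.W924.OC
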